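import Mathlib
import Pool.Agent.Y268.D3.Stm
import Pool.Agent.H294R2.Kad2.Dix2
import Pool.Agent.H834R2.Kad3.Flat
import Pool.Agent.H778R2.Kad3.Vmap
import Pool.Agent.H457R2.Kad3.Main24

/-!
The bound for all matrices from the bound for flat unitaries.
-/

open scoped ComplexOrder InnerProductSpace ComplexConjugate Topology
open Finset Filter

noncomputable section

namespace Y188.D3

open H759R2.Kad H711R2.KG Y268.D3 H294R2.Kad2

/-! ### Sesquilinearity -/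

section form

variable {K : Type} [NormedAddCommGroup K] [InnerProductSpace ℂ K] {q : Form K} {C : ℝ}

theorem form_zero (h : IsForm q C) (ξ : K) : q ξ 0 = 0 := by
  have h1 := h.smul 0 ξ 0
  simpa using h1

theorem form_sum (h : IsForm q C) {ι : Type} (s : Finset ι) (ξ : K) (f : ι → K) :
    q ξ (∑ i ∈ s, f i) = ∑ i ∈ s, q ξ (f i) := by
  classical
  induction s using Finset.induction_on with
  | empty => simp [form_zero h]
  | insert a s ha ih => rw [Finset.sum_insert ha, h.add, ih, Finset.sum_insert ha]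

theorem form_sum_left (h : IsForm q C) {ι : Type} (s : Finset ι) (ξ : K) (f : ι → K) :
    q (∑ i ∈ s, f i) ξ = ∑ i ∈ s, q (f i) ξ := by
  rw [h.herm ξ, form_sum h, map_sum]
  refine Finset.sum_congr rfl fun i _ => ?_
  rw [h.herm (f i) ξ, Complex.conj_conj]

theorem form_smul_left (h : IsForm q C) (c : ℂ) (ξ η : K) :
    q (c • ξ) η = conj c * q ξ η := by
  rw [h.herm η, h.smul, map_mul, ← h.herm]

/-- Sums of a form over the rows of a scalar unitary. -/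
theorem form_scal (h : IsForm q C) {ι : Type} [Fintype ι] [DecidableEq ι] {s : Matrix ι ι ℂ}
    (hs : s ∈ unitary (Matrix ι ι ℂ)) (v : ι → K) :
    ∑ i, q (∑ j, s i j • v j) (∑ j, s i j • v j) = ∑ j, q (v j) (v j) := by
  have h1 : ∀ i, q (∑ j, s i j • v j) (∑ j, s i j • v j) =
      ∑ j, ∑ k, (star s j i * s i k) * q (v j) (v k) := by
    intro i
    rw [form_sum_left h]
    refine Finset.sum_congr rfl fun j _ => ?_
    rw [form_sum h]
    refine Finset.sum_congr rfl fun k _ => ?_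
    rw [form_smul_left h, h.smul, Matrix.star_apply, ← mul_assoc]
    rfl
  rw [Finset.sum_congr rfl fun i _ => h1 i, Finset.sum_comm]
  refine Finset.sum_congr rfl fun j _ => ?_
  rw [Finset.sum_comm, Finset.sum_eq_single j]
  · rw [← Finset.sum_mul]
    have h3 : ∑ i, star s j i * s i j = (1 : Matrix ι ι ℂ) j j := by
      rw [← Matrix.mul_apply, hs.1]
    rw [h3, Matrix.one_apply_eq, one_mul]
  · intro k _ hk
    rw [← Finset.sum_mul]
    have h3 : ∑ i, star s j i * s i k = (1 : Matrix ι ι ℂ) j k := by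
      rw [← Matrix.mul_apply, hs.1]
    rw [h3, Matrix.one_apply_ne (Ne.symm hk), zero_mul]
  · simp

theorem qa_nonneg (h : IsForm q C) {ι : Type} [Fintype ι] (ξ : HH ι K) :
    0 ≤ (qa q ξ ξ).re := by
  unfold qa
  rw [Complex.re_sum]
  exact Finset.sum_nonneg fun i _ => h.pos _

variable {B : Type} [CStarAlgebra B]

theorem qa_tens (h : IsForm q C) {w : B →ₗ[ℂ] (K →L[ℂ] K)} (hw1 : w 1 = 1) {ι : Type} [Fintype ι]
    [DecidableEq ι] {s : Matrix ι ι ℂ} (hs : s ∈ unitary (Matrix ι ι ℂ)) (v : HH ι K) :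
    qa q (amp w ι (tens s (1 : B)) v) (amp w ι (tens s (1 : B)) v) = qa q v v := by
  have h1 : ∀ i, amp w ι (tens s (1 : B)) v i = ∑ j, s i j • v j := by
    intro i
    rw [amp_apply]
    refine Finset.sum_congr rfl fun j _ => ?_
    have : tens s (1 : B) i j = s i j • (1 : B) := rfl
    rw [this, map_smul, hw1]
    rfl
  unfold qa
  rw [← form_scal h hs (fun j => v j)]
  refine Finset.sum_congr rfl fun i _ => ?_
  rw [h1 i]

end form

/-! ### Numbers -/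

theorem flat_num3 {m L : ℕ} {γ : ℝ} (hm : 0 < m) (hγ : 1 ≤ γ)
    (hL : 25920 * (m : ℝ) ^ 11 * γ ^ 6 ≤ L) {p : ℝ} (hp : p ^ 3 ≤ 15 / ((m * L : ℕ) : ℝ)) :
    p ≤ 1 / (12 * m ^ 4 * γ ^ 2) := by
  have hm' : (0 : ℝ) < m := by exact_mod_cast hm
  have hγ' : (0 : ℝ) < γ := by linarith
  have h1 : (15 : ℝ) / ((m * L : ℕ) : ℝ) ≤ (1 / (12 * m ^ 4 * γ ^ 2)) ^ 3 := by
    have h2 : (25920 : ℝ) * m ^ 12 * γ ^ 6 ≤ ((m * L : ℕ) : ℝ) := by
      push_cast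
      calc (25920 : ℝ) * m ^ 12 * γ ^ 6 = (m : ℝ) * (25920 * (m : ℝ) ^ 11 * γ ^ 6) := by ring
        _ ≤ (m : ℝ) * (L : ℝ) := mul_le_mul_of_nonneg_left hL hm'.le
    have h3 : (0 : ℝ) < 25920 * m ^ 12 * γ ^ 6 := by positivity
    calc (15 : ℝ) / ((m * L : ℕ) : ℝ) ≤ 15 / (25920 * m ^ 12 * γ ^ 6) :=
          div_le_div_of_nonneg_left (by norm_num) h3 h2
      _ = (1 / (12 * m ^ 4 * γ ^ 2)) ^ 3 := by
          field_simp
          ring
  have h4 : p ^ 3 ≤ (1 / (12 * m ^ 4 * γ ^ 2)) ^ 3 := hp.trans h1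
  exact (Odd.strictMono_pow (by decide : Odd 3)).le_iff_le.mp h4

/-! ### The bound -/

theorem prove_all3 : S_cb → S_M2 → S_sides → S_joint → S_unit3 → S_all3 := by
  intro hcb hM2 hsides hjoint hunit N _ _ _ τ hτ hdix horth K _ _ _ w hw γ hγ hwγ L m hm hL hlvl
  have hγ0 : (0 : ℝ) ≤ γ := zero_le_one.trans hγ
  obtain ⟨ht, htd, hto⟩ := hM2 N τ hτ hdix horth
  obtain ⟨q₁, q₂, E₁, E₂, Ec, hq₁, hq₂, hd₁, hd₂, hs₁, hs₂, ha₁, ha₂, ha₃, ha₄⟩ :=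
    hsides N τ hτ hdix horth K w hw γ hγ0 hwγ
  refine ⟨q₁, hq₁, q₂, hq₂, ha₁, ha₂, ha₃, ha₄, ?_⟩
  have hwv : ∀ b, ‖vmap w b‖ ≤ γ * ‖b‖ := (prove3_vmap _ K w).2.2 γ hwγ
  have hF₁ : IsForm q₁ (6 * γ ^ 2) := (hcb _ K (vmap w) hw.vmap γ hγ0 hwv).2.2.2.1 q₁ hq₁
  have hF₂ : IsForm q₂ (6 * γ ^ 2) := (hcb _ K w hw γ hγ0 hwγ).2.2.2.1 q₂ hq₂
  obtain ⟨Ω, E, p₁, p₂, G, hW₁, hW₂⟩ :=
    hjoint _ (ntr τ (Fin 2)) ht K w hw γ hγ0 hwγ q₁ q₂ E₁ E₂ Ec hs₁ hs₂ (m * L)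
  have hLpos : 0 < L := by
    have h1 : (0 : ℝ) < 25920 * (m : ℝ) ^ 11 * γ ^ 6 := by
      have hm' : (0 : ℝ) < m := by exact_mod_cast hm
      have hγ' : (0 : ℝ) < γ := by linarith
      positivity
    exact_mod_cast h1.trans_le hL
  have hn : 0 < m * L := Nat.mul_pos hm hLpos
  have key : ∀ x ∈ unitary (CStarMatrix (Fin (m * L)) (Fin (m * L))
      (CStarMatrix (Fin 2) (Fin 2) N)), ∀ ζ η : HH (Fin (m * L)) K,
      ‖⟪amp w (Fin (m * L)) x ζ, η⟫_ℂ‖ ^ 2 ≤ 2500 * γ ^ 2 *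
        ((qa q₂ ζ ζ).re + ‖ζ‖ ^ 2) * ((qa q₁ η η).re + ‖η‖ ^ 2) := by
    intro x hx ζ η
    obtain ⟨t, htu, hflat⟩ := prove3_flat _ (ntr τ (Fin 2)) ht (m * L) hn x hx
    have hT : tens t (1 : CStarMatrix (Fin 2) (Fin 2) N) ∈ unitary (CStarMatrix (Fin (m * L))
        (Fin (m * L)) (CStarMatrix (Fin 2) (Fin 2) N)) :=
      Block.tens_unitary htu (one_mem _)
    have hy : x * tens t (1 : CStarMatrix (Fin 2) (Fin 2) N) ∈ unitary (CStarMatrix (Fin (m * L))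
        (Fin (m * L)) (CStarMatrix (Fin 2) (Fin 2) N)) := mul_mem hx hT
    have htu' : star t ∈ unitary (Matrix (Fin (m * L)) (Fin (m * L)) ℂ) := Unitary.star_mem htu
    set ζ' : HH (Fin (m * L)) K :=
      amp w (Fin (m * L)) (tens (star t) (1 : CStarMatrix (Fin 2) (Fin 2) N)) ζ with hζ'
    have e1 : x = (x * tens t (1 : CStarMatrix (Fin 2) (Fin 2) N)) *
        tens (star t) (1 : CStarMatrix (Fin 2) (Fin 2) N) := by
      have e2 : star (tens t (1 : CStarMatrix (Fin 2) (Fin 2) N)) =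
          tens (star t) (1 : CStarMatrix (Fin 2) (Fin 2) N) := by
        rw [star_tens, star_one]
      rw [← e2, mul_assoc, hT.2, mul_one]
    have e3 : amp w (Fin (m * L)) x ζ =
        amp w (Fin (m * L)) (x * tens t (1 : CStarMatrix (Fin 2) (Fin 2) N)) ζ' := by
      rw [hζ']
      conv_lhs => rw [e1, (amp_isHom hw).mul]
      rfl
    have e4 : qa q₂ ζ' ζ' = qa q₂ ζ ζ := qa_tens hF₂ hw.one htu' ζ
    have e5 : ‖ζ'‖ ≤ ‖ζ‖ := by
      have e6 : ‖amp w (Fin (m * L)) (tens (star t) (1 : CStarMatrix (Fin 2) (Fin 2) N))‖ ≤ 1 :=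
        A24.norm_amp_tens_one hw.one htu'
      calc ‖ζ'‖ ≤ ‖amp w (Fin (m * L)) (tens (star t) (1 : CStarMatrix (Fin 2) (Fin 2) N))‖ *
            ‖ζ‖ := ContinuousLinearMap.le_opNorm _ _
        _ ≤ 1 * ‖ζ‖ := mul_le_mul_of_nonneg_right e6 (norm_nonneg _)
        _ = ‖ζ‖ := one_mul _
    have e7 := hunit _ (ntr τ (Fin 2)) ht K w hw q₁ q₂ (6 * γ ^ 2) hF₁ hF₂ hd₁ hd₂ γ hγ hwγ L m
      hm hL hlvl Ω E p₁ p₂ G hW₁ hW₂ _ hy (fun i j => flat_num3 hm hγ hL (hflat i j)) ζ' η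
    rw [e3]
    refine e7.trans ?_
    rw [e4]
    have e8 : ‖ζ'‖ ^ 2 ≤ ‖ζ‖ ^ 2 := pow_le_pow_left₀ (norm_nonneg _) e5 2
    have e9 := qa_nonneg hF₁ η
    gcongr
  intro X ζ η
  obtain ⟨u, c, hX, hc⟩ := CStarAlgebra.exists_sum_four_unitary X
  set P : ℝ := 2500 * γ ^ 2 * ((qa q₂ ζ ζ).re + ‖ζ‖ ^ 2) * ((qa q₁ η η).re + ‖η‖ ^ 2) with hP
  have hP0 : 0 ≤ P := by
    have h1 := qa_nonneg hF₁ η
    have h2 := qa_nonneg hF₂ ζ
    positivity
  have hk : ∀ i, ‖⟪amp w (Fin (m * L)) (u i : CStarMatrix (Fin (m * L)) (Fin (m * L))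
      (CStarMatrix (Fin 2) (Fin 2) N)) ζ, η⟫_ℂ‖ ≤ √P := fun i =>
    Real.le_sqrt_of_sq_le (key _ (u i).2 ζ η)
  have hb : ‖⟪amp w (Fin (m * L)) X ζ, η⟫_ℂ‖ ≤ 2 * ‖X‖ * √P := by
    calc ‖⟪amp w (Fin (m * L)) X ζ, η⟫_ℂ‖ = ‖∑ i, conj (c i) * ⟪amp w (Fin (m * L))
          (u i : CStarMatrix (Fin (m * L)) (Fin (m * L))
            (CStarMatrix (Fin 2) (Fin 2) N)) ζ, η⟫_ℂ‖ := by
          conv_lhs => rw [hX]
          rw [map_sum]
          simp_rw [map_smul]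
          rw [_root_.sum_apply, sum_inner]
          simp_rw [smul_apply, inner_smul_left]
      _ ≤ ∑ i, ‖conj (c i) * ⟪amp w (Fin (m * L))
          (u i : CStarMatrix (Fin (m * L)) (Fin (m * L))
            (CStarMatrix (Fin 2) (Fin 2) N)) ζ, η⟫_ℂ‖ := norm_sum_le _ _
      _ ≤ ∑ i : Fin 4, ‖X‖ / 2 * √P := by
          refine Finset.sum_le_sum fun i _ => ?_
          rw [norm_mul, RCLike.norm_conj]
          exact mul_le_mul (hc i) (hk i) (norm_nonneg _) (by positivity)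
      _ = 2 * ‖X‖ * √P := by
          simp
          ring
  calc ‖⟪amp w (Fin (m * L)) X ζ, η⟫_ℂ‖ ^ 2 ≤ (2 * ‖X‖ * √P) ^ 2 :=
        pow_le_pow_left₀ (norm_nonneg _) hb 2
    _ = 4 * ‖X‖ ^ 2 * √P ^ 2 := by ring
    _ = 4 * ‖X‖ ^ 2 * P := by rw [Real.sq_sqrt hP0]
    _ = 10000 * γ ^ 2 * ‖X‖ ^ 2 * ((qa q₂ ζ ζ).re + ‖ζ‖ ^ 2) * ((qa q₁ η η).re + ‖η‖ ^ 2) := by
        rw [hP]
        ring

end Y188.D3
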